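import Pool.Agent.Q211.ZG.PRJ

/-!
Project ZG, job CAS.
-/

set_option autoImplicit false

namespace Pool.Agent.Q211.ZG

open Matrix Pool.Agent.Q60.ED Pool.Agent.Q271.ZG

variable {ι : Type} [Fintype ι] [DecidableEq ι]

/-- vectors indexed by pairs as matrices -/
def un : (ι × ι → ℂ) →ₗ[ℂ] Matrix ι ι ℂ where
  toFun f := Matrix.of fun a b => f (a, b)
  map_add' _ _ := rfl
  map_smul' _ _ := rfl

/-- the adjoint action -/
def adm (y : Matrix ι ι ℂ) : Matrix (ι × ι) (ι × ι) ℂ := Matrix.of fun p q =>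
  (if p.2 = q.2 then y p.1 q.1 else 0) - (if p.1 = q.1 then y q.2 p.2 else 0)

theorem un_adm (y : Matrix ι ι ℂ) (v : ι × ι → ℂ) : un (adm y *ᵥ v) = y * un v - un v * y := by
  ext a b
  change ∑ q, adm y (a, b) q * v q = ∑ c, y a c * v (c, b) - ∑ c, v (a, c) * y c b
  rw [Fintype.sum_prod_type]
  simp only [adm, Matrix.of_apply, sub_mul, ite_mul, zero_mul, Finset.sum_sub_distrib,
    Finset.sum_ite_eq, Finset.mem_univ, if_true]
  congr 1
  rw [Finset.sum_comm]
  simp only [Finset.sum_ite_eq, Finset.mem_univ, if_true]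
  exact Finset.sum_congr rfl fun c _ => mul_comm _ _

omit [Fintype ι] in
theorem adm_ct (y : Matrix ι ι ℂ) : (adm y)ᴴ = adm yᴴ := by
  ext p q
  rw [Matrix.conjTranspose_apply]
  simp only [adm, Matrix.of_apply, star_sub, Matrix.conjTranspose_apply]
  congr 1
  · by_cases h : q.2 = p.2
    · rw [if_pos h, if_pos h.symm]
    · rw [if_neg h, if_neg (fun h' => h h'.symm), star_zero]
  · by_cases h : q.1 = p.1
    · rw [if_pos h, if_pos h.symm]
    · rw [if_neg h, if_neg (fun h' => h h'.symm), star_zero]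

/-- the matrix on pairs -/
def Om (P : Matrix (ι × ι) (ι × ι) ℂ) : Matrix (Fin 2 → ι) (Fin 2 → ι) ℂ :=
  Matrix.of fun I J => P (I 0, J 0) (J 1, I 1)

omit [DecidableEq ι] in
theorem sum2 (f : (Fin 2 → ι) → ℂ) : ∑ K, f K = ∑ a, ∑ b, f ![a, b] := by
  rw [← (finTwoArrowEquiv ι).symm.sum_comp, Fintype.sum_prod_type]
  rfl

omit [Fintype ι] in
theorem dTP2 (y : Matrix ι ι ℂ) (I K : Fin 2 → ι) : dTP y 2 I K =
    (if I 1 = K 1 then y (I 0) (K 0) else 0) + (if I 0 = K 0 then y (I 1) (K 1) else 0) := by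
  unfold dTP
  rw [Matrix.of_apply, Fin.sum_univ_two]
  congr 1
  · refine if_congr ⟨fun h => h 1 (by decide), fun h l hl => ?_⟩ rfl rfl
    fin_cases l
    · exact absurd rfl hl
    · exact h
  · refine if_congr ⟨fun h => h 0 (by decide), fun h l hl => ?_⟩ rfl rfl
    fin_cases l
    · exact h
    · exact absurd rfl hl

omit [Fintype ι] in
theorem dTP2r (y : Matrix ι ι ℂ) (I : Fin 2 → ι) (a b : ι) : dTP y 2 I ![a, b] =
    (if I 1 = b then y (I 0) a else 0) + (if I 0 = a then y (I 1) b else 0) := dTP2 y I ![a, b]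

omit [Fintype ι] in
theorem dTP2l (y : Matrix ι ι ℂ) (J : Fin 2 → ι) (a b : ι) : dTP y 2 ![a, b] J =
    (if b = J 1 then y a (J 0) else 0) + (if a = J 0 then y b (J 1) else 0) := dTP2 y ![a, b] J

theorem tw_om {𝔤 : Submodule ℂ (Matrix ι ι ℂ)} {P : Matrix (ι × ι) (ι × ι) ℂ}
    (h : ∀ y ∈ 𝔤, adm y * P = P * adm y) : Tw 𝔤 2 2 (Om P) := by
  intro y hy
  ext I J
  have h1 := congrFun (congrFun (h y hy) (I 0, J 0)) (J 1, I 1)
  rw [Matrix.mul_apply, Matrix.mul_apply, Fintype.sum_prod_type, Fintype.sum_prod_type] at h1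
  simp only [adm, Matrix.of_apply, sub_mul, mul_sub, ite_mul, mul_ite, zero_mul, mul_zero,
    Finset.sum_sub_distrib, Finset.sum_ite_eq, Finset.sum_ite_eq', Finset.mem_univ, if_true]
    at h1
  rw [Finset.sum_comm (f := fun x y_1 => if I 0 = x then y y_1 (J 0) * P (x, y_1) (J 1, I 1)
    else 0), Finset.sum_comm (f := fun x y_1 => if x = J 1 then P (I 0, J 0) (x, y_1) *
    y (I 1) y_1 else 0)] at h1
  simp only [Finset.sum_ite_eq, Finset.sum_ite_eq', Finset.mem_univ, if_true] at h1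
  rw [Matrix.mul_apply, Matrix.mul_apply, sum2, sum2]
  simp only [dTP2r, dTP2l, Om, Matrix.of_apply, add_mul, mul_add, ite_mul, mul_ite, zero_mul, mul_zero,
    Finset.sum_add_distrib, Matrix.cons_val_zero, Matrix.cons_val_one, Finset.sum_ite_eq,
    Finset.sum_ite_eq', Finset.mem_univ, if_true]
  rw [Finset.sum_comm (f := fun x x_1 => if I 0 = x then y (I 1) x_1 * P (x, J 0) (J 1, x_1)
    else 0), Finset.sum_comm (f := fun x x_1 => if x = J 0 then P (I 0, x) (x_1, I 1) *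
    y x_1 (J 1) else 0)]
  simp only [Finset.sum_ite_eq, Finset.sum_ite_eq', Finset.mem_univ, if_true]
  have e1 : ∑ x, P (I 0, J 0) (J 1, x) * y (I 1) x = ∑ x, y (I 1) x * P (I 0, J 0) (J 1, x) :=
    Finset.sum_congr rfl fun _ _ => mul_comm _ _
  have e2 : ∑ x, y x (J 0) * P (I 0, x) (J 1, I 1) = ∑ x, P (I 0, x) (J 1, I 1) * y x (J 0) :=
    Finset.sum_congr rfl fun _ _ => mul_comm _ _
  rw [e1, e2] at h1
  linear_combination h1

omit [DecidableEq ι] in
theorem perm4 (f : ι → ι → ι → ι → ℂ) : ∑ p, ∑ q, ∑ d, ∑ c, f p q d c =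
    ∑ c, ∑ d, ∑ p, ∑ q, f p q d c := by
  calc ∑ p, ∑ q, ∑ d, ∑ c, f p q d c = ∑ p, ∑ q, ∑ c, ∑ d, f p q d c :=
        Finset.sum_congr rfl fun p _ => Finset.sum_congr rfl fun q _ => Finset.sum_comm
    _ = ∑ p, ∑ c, ∑ q, ∑ d, f p q d c := Finset.sum_congr rfl fun p _ => Finset.sum_comm
    _ = ∑ c, ∑ p, ∑ q, ∑ d, f p q d c := Finset.sum_comm
    _ = ∑ c, ∑ p, ∑ d, ∑ q, f p q d c :=
        Finset.sum_congr rfl fun c _ => Finset.sum_congr rfl fun p _ => Finset.sum_comm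
    _ = ∑ c, ∑ d, ∑ p, ∑ q, f p q d c := Finset.sum_congr rfl fun c _ => Finset.sum_comm

/-- **Job CAS.** -/
theorem main_CAS : S_CAS := by
  intro ι _ _ 𝔤 hs hl u hu hc x hx
  obtain ⟨P, _, h2, h3, h4⟩ := main_PRJ (ι × ι) (𝔤.comap un)
  have hcomm : ∀ y ∈ 𝔤, adm y * P = P * adm y := by
    intro y hy
    refine h4 (adm y) (fun v hv => ?_) fun v hv => ?_
    · rw [Submodule.mem_comap, un_adm]
      exact hl y hy _ hv
    · rw [Submodule.mem_comap, adm_ct, un_adm]
      exact hl _ (hs y hy) _ hv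
  have hΩ := hc _ (tw_om hcomm)
  have hΩ' : ∀ a d b c, ∑ p, ∑ q, u a p * u d q * P (p, b) (c, q) =
      ∑ p, ∑ q, P (a, p) (q, d) * (u p b * u q c) := by
    intro a d b c
    have h5 := congrFun (congrFun hΩ ![a, d]) ![b, c]
    rw [Matrix.mul_apply, Matrix.mul_apply, sum2, sum2] at h5
    simp only [TP_apply, Fin.prod_univ_two, Om, Matrix.of_apply, Matrix.cons_val_zero,
      Matrix.cons_val_one] at h5
    exact h5
  -- the equation for all matrices
  obtain ⟨vc, hvc⟩ : ∃ vc : Matrix ι ι ℂ → (ι × ι → ℂ), ∀ z p, vc z p = z p.1 p.2 :=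
    ⟨fun z p => z p.1 p.2, fun _ _ => rfl⟩
  have hunvc : ∀ z, un (vc z) = z := by
    intro z
    ext a b
    exact hvc z (a, b)
  have key : ∀ z : Matrix ι ι ℂ, un (P *ᵥ vc (u * z)) * u = u * un (P *ᵥ vc (z * u)) := by
    intro z
    ext a b
    have l1 : (un (P *ᵥ vc (u * z)) * u) a b =
        ∑ p, ∑ q, ∑ d, ∑ c, z c d * (P (a, p) (q, d) * (u p b * u q c)) := by
      rw [Matrix.mul_apply]
      refine Finset.sum_congr rfl fun p _ => ?_
      change (∑ r, P (a, p) r * vc (u * z) r) * u p b = _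
      rw [Fintype.sum_prod_type, Finset.sum_mul]
      refine Finset.sum_congr rfl fun q _ => ?_
      rw [Finset.sum_mul]
      refine Finset.sum_congr rfl fun d _ => ?_
      rw [hvc, Matrix.mul_apply, Finset.mul_sum, Finset.sum_mul]
      exact Finset.sum_congr rfl fun c _ => by ring
    have r1 : (u * un (P *ᵥ vc (z * u))) a b =
        ∑ p, ∑ c, ∑ q, ∑ d, z c d * (u a p * u d q * P (p, b) (c, q)) := by
      rw [Matrix.mul_apply]
      refine Finset.sum_congr rfl fun p _ => ?_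
      change u a p * (∑ r, P (p, b) r * vc (z * u) r) = _
      rw [Fintype.sum_prod_type, Finset.mul_sum]
      refine Finset.sum_congr rfl fun c _ => ?_
      rw [Finset.mul_sum]
      refine Finset.sum_congr rfl fun q _ => ?_
      rw [hvc, Matrix.mul_apply, Finset.mul_sum, Finset.mul_sum]
      exact Finset.sum_congr rfl fun d _ => by ring
    have r2 : ∑ p, ∑ c, ∑ q, ∑ d, z c d * (u a p * u d q * P (p, b) (c, q)) =
        ∑ c, ∑ d, ∑ p, ∑ q, z c d * (u a p * u d q * P (p, b) (c, q)) := by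
      rw [Finset.sum_comm]
      refine Finset.sum_congr rfl fun c _ => ?_
      calc ∑ p, ∑ q, ∑ d, z c d * (u a p * u d q * P (p, b) (c, q)) =
            ∑ p, ∑ d, ∑ q, z c d * (u a p * u d q * P (p, b) (c, q)) :=
            Finset.sum_congr rfl fun p _ => Finset.sum_comm
        _ = _ := Finset.sum_comm
    rw [l1, r1, r2, perm4]
    refine Finset.sum_congr rfl fun c _ => Finset.sum_congr rfl fun d _ => ?_
    simp only [← Finset.mul_sum]
    rw [hΩ' a d b c]
  have hu' : uᴴ * u = 1 := mul_eq_one_comm.1 hu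
  have h6 := key (x * uᴴ)
  have h7 : x * uᴴ * u = x := by rw [Matrix.mul_assoc, hu', Matrix.mul_one]
  have h8 : P *ᵥ vc x = vc x := h3 _ (by
    rw [Submodule.mem_comap, hunvc]
    exact hx)
  rw [h7, h8, hunvc] at h6
  have h9 : un (P *ᵥ vc (u * (x * uᴴ))) = u * x * uᴴ := by
    have h10 := congrArg (fun m => m * uᴴ) h6
    beta_reduce at h10
    rw [Matrix.mul_assoc, hu, Matrix.mul_one] at h10
    exact h10
  rw [← h9]
  exact h2 _

end Pool.Agent.Q211.ZG
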