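import Pool.Agent.Q271.ZG.Stm

/-!
Project ZG, jobs PRJ and DOM.
-/

set_option autoImplicit false

namespace Pool.Agent.Q211.ZG

open Matrix Pool.Agent.Q60.ED Pool.Agent.Q271.ZG
open scoped ComplexOrder

theorem ext_mulVec {κ κ' : Type} [Fintype κ] [Fintype κ'] [DecidableEq κ'] {A B : Matrix κ κ' ℂ}
    (h : ∀ v, A *ᵥ v = B *ᵥ v) : A = B :=
  Matrix.toLin'.injective (LinearMap.ext h)

/-- **Job PRJ.** -/
theorem main_PRJ : S_PRJ := by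
  intro κ _ _ E
  obtain ⟨E', hE'⟩ : ∃ E' : Submodule ℂ (EuclideanSpace ℂ κ), ∀ v, v ∈ E' ↔
      (WithLp.linearEquiv 2 ℂ (κ → ℂ)) v ∈ E :=
    ⟨E.comap (WithLp.linearEquiv 2 ℂ (κ → ℂ)).toLinearMap, fun _ => Iff.rfl⟩
  obtain ⟨p, hp⟩ : ∃ p : EuclideanSpace ℂ κ →ₗ[ℂ] EuclideanSpace ℂ κ, p =
      (E'.starProjection : EuclideanSpace ℂ κ →L[ℂ] EuclideanSpace ℂ κ).toLinearMap := ⟨_, rfl⟩
  obtain ⟨P, hP⟩ : ∃ P : Matrix κ κ ℂ, Matrix.toEuclideanLin P = p :=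
    ⟨Matrix.toEuclideanLin.symm p, LinearEquiv.apply_symm_apply _ _⟩
  have hPv : ∀ v : κ → ℂ, P *ᵥ v = (WithLp.linearEquiv 2 ℂ (κ → ℂ))
      (p ((WithLp.linearEquiv 2 ℂ (κ → ℂ)).symm v)) := by
    intro v
    rw [← hP]
    rfl
  have h1 : Pᴴ = P := by
    have h2 : (Matrix.toEuclideanLin P).IsSymmetric := by
      rw [hP, hp]
      exact Submodule.starProjection_isSymmetric E'
    exact Matrix.isSymmetric_toEuclideanLin_iff.1 h2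
  have h2 : ∀ v, P *ᵥ v ∈ E := by
    intro v
    rw [hPv, ← hE', hp]
    exact Submodule.starProjection_apply_mem _ _
  have h3 : ∀ v ∈ E, P *ᵥ v = v := by
    intro v hv
    rw [hPv, hp]
    have h4 : (WithLp.linearEquiv 2 ℂ (κ → ℂ)).symm v ∈ E' := by
      rw [hE', LinearEquiv.apply_symm_apply]
      exact hv
    have h5 := (Submodule.starProjection_eq_self_iff (K := E')).2 h4
    refine (congrArg (WithLp.linearEquiv 2 ℂ (κ → ℂ)) h5).trans ?_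
    exact LinearEquiv.apply_symm_apply _ _
  refine ⟨P, h1, h2, h3, fun x hx hx' => ?_⟩
  have e1 : ∀ y : Matrix κ κ ℂ, (∀ v ∈ E, y *ᵥ v ∈ E) → P * (y * P) = y * P := by
    intro y hy
    refine ext_mulVec fun v => ?_
    rw [← Matrix.mulVec_mulVec, ← Matrix.mulVec_mulVec]
    exact h3 _ (hy _ (h2 v))
  have e2 := congrArg Matrix.conjTranspose (e1 xᴴ hx')
  rw [Matrix.conjTranspose_mul, Matrix.conjTranspose_mul, Matrix.conjTranspose_conjTranspose, h1]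
    at e2
  rw [← e1 x hx, ← Matrix.mul_assoc]
  exact e2

/-- the increasing sequence of spaces -/
def En {κ : Type} [Fintype κ] (𝔤 : Submodule ℂ (Matrix κ κ ℂ)) (Ω₀ : Submodule ℂ (κ → ℂ)) :
    ℕ → Submodule ℂ (κ → ℂ)
  | 0 => Ω₀
  | n + 1 => En 𝔤 Ω₀ n ⊔ Submodule.span ℂ {w | ∃ x ∈ 𝔤, ∃ v ∈ En 𝔤 Ω₀ n, w = x *ᵥ v}

theorem en_mono {κ : Type} [Fintype κ] (𝔤 : Submodule ℂ (Matrix κ κ ℂ))
    (Ω₀ : Submodule ℂ (κ → ℂ)) : Monotone (En 𝔤 Ω₀) :=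
  monotone_nat_of_le_succ fun _ => le_sup_left

theorem en_act {κ : Type} [Fintype κ] {𝔤 : Submodule ℂ (Matrix κ κ ℂ)}
    {Ω₀ : Submodule ℂ (κ → ℂ)} {n : ℕ} {x : Matrix κ κ ℂ} (hx : x ∈ 𝔤) {v : κ → ℂ}
    (hv : v ∈ En 𝔤 Ω₀ n) : x *ᵥ v ∈ En 𝔤 Ω₀ (n + 1) :=
  Submodule.mem_sup_right (Submodule.subset_span ⟨x, hx, v, hv, rfl⟩)

/-- elements preserving `Ω₀` preserve all the spaces -/
theorem en_stable {κ : Type} [Fintype κ] {𝔤 : Submodule ℂ (Matrix κ κ ℂ)} (hl : IsLie 𝔤)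
    {Ω₀ : Submodule ℂ (κ → ℂ)} {b : Matrix κ κ ℂ} (hb : b ∈ 𝔤) (h0 : ∀ v ∈ Ω₀, b *ᵥ v ∈ Ω₀)
    (n : ℕ) : ∀ v ∈ En 𝔤 Ω₀ n, b *ᵥ v ∈ En 𝔤 Ω₀ n := by
  induction n with
  | zero => exact h0
  | succ n ih =>
    intro v hv
    obtain ⟨v1, hv1, v2, hv2, rfl⟩ := Submodule.mem_sup.1 hv
    rw [Matrix.mulVec_add]
    refine add_mem (Submodule.mem_sup_left (ih v1 hv1)) ?_
    clear hv
    induction hv2 using Submodule.span_induction with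
    | mem w hw =>
      obtain ⟨y, hy, u, hu, rfl⟩ := hw
      have e1 : b *ᵥ (y *ᵥ u) = y *ᵥ (b *ᵥ u) + (b * y - y * b) *ᵥ u := by
        rw [Matrix.sub_mulVec, Matrix.mulVec_mulVec, Matrix.mulVec_mulVec, add_sub_cancel]
      rw [e1]
      exact add_mem (en_act hy (ih u hu)) (en_act (hl b hb y hy) hu)
    | zero =>
      rw [Matrix.mulVec_zero]
      exact zero_mem _
    | add w w' _ _ h1 h2 =>
      rw [Matrix.mulVec_add]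
      exact add_mem h1 h2
    | smul a w _ h1 =>
      rw [Matrix.mulVec_smul]
      exact Submodule.smul_mem _ _ h1

/-- the image of the adjoints -/
def Nn {κ : Type} [Fintype κ] (𝔫 : Submodule ℂ (Matrix κ κ ℂ)) : Submodule ℂ (κ → ℂ) :=
  Submodule.span ℂ {w | ∃ b ∈ 𝔫, ∃ v, w = bᴴ *ᵥ v}

theorem nn_orth {κ : Type} [Fintype κ] {𝔫 : Submodule ℂ (Matrix κ κ ℂ)} {m : κ → ℂ}
    (hm : ∀ b ∈ 𝔫, b *ᵥ m = 0) {n : κ → ℂ} (hn : n ∈ Nn 𝔫) : star n ⬝ᵥ m = 0 := by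
  unfold Nn at hn
  induction hn using Submodule.span_induction with
  | mem w hw =>
    obtain ⟨b, hb, v, rfl⟩ := hw
    rw [Matrix.star_mulVec, Matrix.conjTranspose_conjTranspose, ← Matrix.dotProduct_mulVec,
      hm b hb, dotProduct_zero]
  | zero => rw [star_zero, zero_dotProduct]
  | add w w' _ _ h1 h2 => rw [star_add, add_dotProduct, h1, h2, add_zero]
  | smul a w _ h1 => rw [star_smul, smul_dotProduct, h1, smul_zero]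

theorem en_le {κ : Type} [Fintype κ] {𝔤 𝔫 𝔥 : Submodule ℂ (Matrix κ κ ℂ)} (hl : IsLie 𝔤)
    (hn : 𝔫 ≤ 𝔤) (hh : 𝔥 ≤ 𝔤) (hd : ∀ x ∈ 𝔤, ∃ a ∈ 𝔫, ∃ b ∈ 𝔫, ∃ c ∈ 𝔥, x = a + bᴴ + c)
    {Ω₀ : Submodule ℂ (κ → ℂ)} (h1 : ∀ x ∈ 𝔫, ∀ ω ∈ Ω₀, x *ᵥ ω = 0)
    (h2 : ∀ x ∈ 𝔥, ∀ ω ∈ Ω₀, x *ᵥ ω ∈ Ω₀) (n : ℕ) : En 𝔤 Ω₀ n ≤ Ω₀ ⊔ Nn 𝔫 := by
  induction n with
  | zero => exact le_sup_left
  | succ n ih =>
    refine sup_le ih (Submodule.span_le.2 ?_)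
    rintro _ ⟨x, hx, v, hv, rfl⟩
    obtain ⟨a, ha, b, hb, c, hc, rfl⟩ := hd x hx
    rw [Matrix.add_mulVec, Matrix.add_mulVec]
    refine add_mem (add_mem ?_ ?_) ?_
    · refine ih (en_stable hl (hn ha) (fun w hw => ?_) n v hv)
      rw [h1 a ha w hw]
      exact zero_mem _
    · exact Submodule.mem_sup_right (Submodule.subset_span ⟨b, hb, v, rfl⟩)
    · exact ih (en_stable hl (hh hc) (h2 c hc) n v hv)

/-- **Job DOM.** -/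
theorem main_DOM : S_DOM := by
  intro κ _ _ 𝔤 𝔫 𝔥 _ hl hn hh hd Ω₀ h1 h2
  have hmem : ∀ v, v ∈ (⨆ n, En 𝔤 Ω₀ n) ↔ ∃ n, v ∈ En 𝔤 Ω₀ n := fun v =>
    Submodule.mem_iSup_of_directed _ (en_mono 𝔤 Ω₀).directed_le
  refine ⟨⨆ n, En 𝔤 Ω₀ n, le_iSup (En 𝔤 Ω₀) 0, fun x hx v hv => ?_, fun F hF hF' => ?_,
    fun v hv hk => ?_⟩
  · obtain ⟨n, hn'⟩ := (hmem v).1 hv
    exact (hmem _).2 ⟨n + 1, en_act hx hn'⟩
  · refine iSup_le fun n => ?_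
    induction n with
    | zero => exact hF
    | succ n ih =>
      refine sup_le ih (Submodule.span_le.2 ?_)
      rintro _ ⟨x, hx, v, hv, rfl⟩
      exact hF' x hx v (ih hv)
  · obtain ⟨n, hn'⟩ := (hmem v).1 hv
    obtain ⟨w, hw, m, hm, rfl⟩ := Submodule.mem_sup.1 (en_le hl hn hh hd h1 h2 n hn')
    have h3 : ∀ b ∈ 𝔫, b *ᵥ m = 0 := by
      intro b hb
      have h4 := hk b hb
      rw [Matrix.mulVec_add, h1 b hb w hw, zero_add] at h4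
      exact h4
    have h5 : m = 0 := by
      have h6 := nn_orth h3 hm
      exact dotProduct_star_self_eq_zero.1 h6
    rw [h5, add_zero]
    exact hw

end Pool.Agent.Q211.ZG
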