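import Pool.Agent.Q271.ZG.Basic
import Pool.Agent.Q211.ZG.PRJ

/-!
Project ZG, job HWE.
-/

set_option autoImplicit false

namespace Pool.Agent.Q211.ZG

open Matrix Pool.Agent.Q60.ED Pool.Agent.Q271.ZG

section

variable {ι : Type} [Fintype ι] [DecidableEq ι]

/-- the strictly positive part -/
def npos (𝔤 : Submodule ℂ (Matrix ι ι ℂ)) (ρ : ι → ℝ) : Submodule ℂ (Matrix ι ι ℂ) where
  carrier := {x | x ∈ 𝔤 ∧ ∀ i j, ¬ ρ j < ρ i → x i j = 0}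
  add_mem' := fun {x y} hx hy => ⟨𝔤.add_mem hx.1 hy.1, fun i j hij => by
    rw [Matrix.add_apply, hx.2 i j hij, hy.2 i j hij, add_zero]⟩
  zero_mem' := ⟨𝔤.zero_mem, fun _ _ _ => rfl⟩
  smul_mem' := fun c x hx => ⟨𝔤.smul_mem c hx.1, fun i j hij => by
    rw [Matrix.smul_apply, hx.2 i j hij, smul_zero]⟩

/-- the diagonal part -/
def hdia (𝔤 : Submodule ℂ (Matrix ι ι ℂ)) : Submodule ℂ (Matrix ι ι ℂ) where
  carrier := {x | x ∈ 𝔤 ∧ ∀ i j, i ≠ j → x i j = 0}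
  add_mem' := fun {x y} hx hy => ⟨𝔤.add_mem hx.1 hy.1, fun i j hij => by
    rw [Matrix.add_apply, hx.2 i j hij, hy.2 i j hij, add_zero]⟩
  zero_mem' := ⟨𝔤.zero_mem, fun _ _ _ => rfl⟩
  smul_mem' := fun c x hx => ⟨𝔤.smul_mem c hx.1, fun i j hij => by
    rw [Matrix.smul_apply, hx.2 i j hij, smul_zero]⟩

theorem mem_npos {𝔤 : Submodule ℂ (Matrix ι ι ℂ)} {ρ : ι → ℝ} {x : Matrix ι ι ℂ} :
    x ∈ npos 𝔤 ρ ↔ x ∈ 𝔤 ∧ ∀ i j, ¬ ρ j < ρ i → x i j = 0 := Iff.rfl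

theorem mem_hdia {𝔤 : Submodule ℂ (Matrix ι ι ℂ)} {x : Matrix ι ι ℂ} :
    x ∈ hdia 𝔤 ↔ x ∈ 𝔤 ∧ ∀ i j, i ≠ j → x i j = 0 := Iff.rfl

/-- the splitting -/
theorem split_npos {𝔤 : Submodule ℂ (Matrix ι ι ℂ)} {ρ : ι → ℝ} (h : Adapted 𝔤 ρ)
    {x : Matrix ι ι ℂ} (hx : x ∈ 𝔤) :
    ∃ a ∈ npos 𝔤 ρ, ∃ b ∈ npos 𝔤 ρ, ∃ c ∈ hdia 𝔤, x = a + bᴴ + c := by
  obtain ⟨a, ha, b, hb, c, hc, h1, h2, h3, h4⟩ := h.split hx
  refine ⟨a, ⟨ha, fun i j hij => ?_⟩, bᴴ, ⟨h.star b hb, fun i j hij => ?_⟩, c, ⟨hc, h3⟩, ?_⟩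
  · by_contra h5
    exact hij (h1 i j h5)
  · rw [Matrix.conjTranspose_apply]
    by_cases h5 : b j i = 0
    · rw [h5, star_zero]
    · exact absurd (h2 j i h5) hij
  · rw [Matrix.conjTranspose_conjTranspose, h4]

/-- the strictly positive part kills what the simple root vectors kill -/
theorem npos_kill {𝔤 : Submodule ℂ (Matrix ι ι ℂ)} {ρ : ι → ℝ} {r : ℕ}
    {e : Fin r → Matrix ι ι ℂ} {α : Fin r → ι → ℝ} (hS : Simple 𝔤 ρ r e α) {k : ℕ}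
    {ω : (Fin k → ι) → ℂ} (hω : ∀ a, dTP (e a) k *ᵥ ω = 0) {x : Matrix ι ι ℂ}
    (hx : x ∈ npos 𝔤 ρ) : dTP x k *ᵥ ω = 0 := by
  let N : Submodule ℂ (Matrix ι ι ℂ) :=
    { carrier := {x | dTP x k *ᵥ ω = 0}
      add_mem' := fun {x y} hx hy => by
        have hx' : dTP x k *ᵥ ω = 0 := hx
        have hy' : dTP y k *ᵥ ω = 0 := hy
        change dTP (x + y) k *ᵥ ω = 0
        rw [dTP_add, Matrix.add_mulVec, hx', hy', add_zero]
      zero_mem' := by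
        change dTP 0 k *ᵥ ω = 0
        rw [dTP_zero, Matrix.zero_mulVec]
      smul_mem' := fun c x hx => by
        have hx' : dTP x k *ᵥ ω = 0 := hx
        change dTP (c • x) k *ᵥ ω = 0
        rw [dTP_smul, Matrix.smul_mulVec, hx', smul_zero] }
  have h1 := hS.gen N hω (fun x hx y hy => by
    have hx' : dTP x k *ᵥ ω = 0 := hx
    have hy' : dTP y k *ᵥ ω = 0 := hy
    change dTP (x * y - y * x) k *ᵥ ω = 0
    rw [dTP_comm, Matrix.sub_mulVec, ← Matrix.mulVec_mulVec, ← Matrix.mulVec_mulVec, hx', hy',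
      Matrix.mulVec_zero, Matrix.mulVec_zero, sub_zero]) x hx.1 (fun i j hij => by
        by_contra h5
        exact hij (hx.2 i j h5))
  exact h1

/-- the diagonal part acts by scalars on weight vectors -/
theorem hdia_smul {𝔤 : Submodule ℂ (Matrix ι ι ℂ)} {k : ℕ}
    {ω : (Fin k → ι) → ℂ} {μ : (ι → ℝ) → ℝ}
    (hμ : ∀ s : ι → ℝ, dg s ∈ 𝔤 → dTP (dg s) k *ᵥ ω = ((μ s : ℝ) : ℂ) • ω)
    {s s' : ι → ℝ} (hs : dg s ∈ 𝔤) (hs' : dg s' ∈ 𝔤) :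
    dTP (dg s + Complex.I • dg s') k *ᵥ ω = ((μ s : ℂ) + Complex.I * μ s') • ω := by
  rw [dTP_add, dTP_smul, Matrix.add_mulVec, Matrix.smul_mulVec, hμ s hs, hμ s' hs', smul_smul,
    ← add_smul]

/-- the block diagonal action -/
def bd (k k' : ℕ) : Matrix ι ι ℂ →ₗ[ℂ]
    Matrix ((Fin k → ι) ⊕ (Fin k' → ι)) ((Fin k → ι) ⊕ (Fin k' → ι)) ℂ where
  toFun x := fromBlocks (dTP x k) 0 0 (dTP x k')
  map_add' x y := by
    rw [dTP_add, dTP_add, fromBlocks_add, add_zero, add_zero]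
  map_smul' c x := by
    rw [dTP_smul, dTP_smul, RingHom.id_apply, fromBlocks_smul, smul_zero, smul_zero]

theorem bd_apply (k k' : ℕ) (x : Matrix ι ι ℂ) :
    bd k k' x = fromBlocks (dTP x k) 0 0 (dTP x k') := rfl

theorem fb_mulVec {κ κ' : Type} [Fintype κ] [Fintype κ'] (A : Matrix κ κ ℂ) (D : Matrix κ' κ' ℂ)
    (ω : κ → ℂ) (ω' : κ' → ℂ) :
    fromBlocks A 0 0 D *ᵥ Sum.elim ω ω' = Sum.elim (A *ᵥ ω) (D *ᵥ ω') := by
  rw [fromBlocks_mulVec, Sum.elim_comp_inl, Sum.elim_comp_inr, Matrix.zero_mulVec,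
    Matrix.zero_mulVec, add_zero, zero_add]

theorem bd_mulVec (k k' : ℕ) (x : Matrix ι ι ℂ) (ω : (Fin k → ι) → ℂ) (ω' : (Fin k' → ι) → ℂ) :
    bd k k' x *ᵥ Sum.elim ω ω' = Sum.elim (dTP x k *ᵥ ω) (dTP x k' *ᵥ ω') := fb_mulVec _ _ _ _

theorem bd_star (k k' : ℕ) (x : Matrix ι ι ℂ) : (bd k k' x)ᴴ = bd k k' xᴴ := by
  rw [bd_apply, bd_apply, fromBlocks_conjTranspose, dTP_conjTranspose, dTP_conjTranspose,
    conjTranspose_zero, conjTranspose_zero]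

theorem bd_comm (k k' : ℕ) (x y : Matrix ι ι ℂ) :
    bd k k' (x * y - y * x) = bd k k' x * bd k k' y - bd k k' y * bd k k' x := by
  have h : ∀ (A A' : Matrix (Fin k → ι) (Fin k → ι) ℂ) (D D' : Matrix (Fin k' → ι) (Fin k' → ι) ℂ),
      fromBlocks A 0 0 D - fromBlocks A' 0 0 D' = fromBlocks (A - A') 0 0 (D - D') := by
    intro A A' D D'
    rw [sub_eq_add_neg, fromBlocks_neg, fromBlocks_add, sub_eq_add_neg, sub_eq_add_neg, neg_zero,
      neg_zero, add_zero, add_zero]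
  simp only [bd_apply, fromBlocks_multiply, Matrix.mul_zero, Matrix.zero_mul, add_zero, zero_add,
    h, dTP_comm]

/-- **Job HWE.** -/
theorem main_HWE : S_HWE := by
  intro ι _ _ 𝔤 ρ r e α hA hS ζ hζ K hK k μ c k' μ' c' hk hk' hW hW' hμ
  obtain ⟨ω, hω0, hωe, hωs, hωζ⟩ := hW
  obtain ⟨ω', hω0', hωe', hωs', hωζ'⟩ := hW'
  have hstar : IsStar (𝔤.map (bd k k')) := by
    rintro _ ⟨x, hx, rfl⟩
    exact ⟨xᴴ, hA.star x hx, (bd_star k k' x).symm⟩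
  have hlie : IsLie (𝔤.map (bd k k')) := by
    rintro _ ⟨x, hx, rfl⟩ _ ⟨y, hy, rfl⟩
    exact ⟨_, hA.lie x hx y hy, bd_comm k k' x y⟩
  have hN : (npos 𝔤 ρ).map (bd k k') ≤ 𝔤.map (bd k k') := Submodule.map_mono fun x hx => hx.1
  have hH : (hdia 𝔤).map (bd k k') ≤ 𝔤.map (bd k k') := Submodule.map_mono fun x hx => hx.1
  obtain ⟨E, hE0, hE1, -, hE3⟩ := main_DOM ((Fin k → ι) ⊕ (Fin k' → ι)) (𝔤.map (bd k k'))
    ((npos 𝔤 ρ).map (bd k k')) ((hdia 𝔤).map (bd k k')) hstar hlie hN hH (by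
      rintro _ ⟨x, hx, rfl⟩
      obtain ⟨a, ha, b, hb, c, hc, h1⟩ := split_npos hA hx
      refine ⟨_, ⟨a, ha, rfl⟩, _, ⟨b, hb, rfl⟩, _, ⟨c, hc, rfl⟩, ?_⟩
      rw [bd_star, ← map_add, ← map_add, h1]) (Submodule.span ℂ {Sum.elim ω ω'}) (by
      rintro _ ⟨x, hx, rfl⟩ v hv
      obtain ⟨a, rfl⟩ := Submodule.mem_span_singleton.1 hv
      rw [Matrix.mulVec_smul, bd_mulVec, npos_kill hS hωe hx, npos_kill hS hωe' hx]
      have h1 : Sum.elim (0 : (Fin k → ι) → ℂ) (0 : (Fin k' → ι) → ℂ) = 0 := by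
        funext i
        rcases i with i | i <;> rfl
      rw [h1, smul_zero]) (by
      rintro _ ⟨x, hx, rfl⟩ v hv
      obtain ⟨a, rfl⟩ := Submodule.mem_span_singleton.1 hv
      obtain ⟨s, s', hs, hs', h1, -, -⟩ := hA.re_im hx.1 hx.2
      rw [Matrix.mulVec_smul, bd_mulVec, h1, hdia_smul hωs hs hs', hdia_smul hωs' hs hs',
        ← hμ s hs, ← hμ s' hs']
      have h2 : Sum.elim (((μ s : ℂ) + Complex.I * μ s') • ω) (((μ s : ℂ) + Complex.I * μ s') • ω') =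
          ((μ s : ℂ) + Complex.I * μ s') • Sum.elim ω ω' := by
        funext i
        rcases i with i | i <;> rfl
      rw [h2, smul_smul]
      exact Submodule.smul_mem _ _ (Submodule.mem_span_singleton_self _))
  obtain ⟨P, -, hP2, hP3, hP4⟩ := main_PRJ _ E
  have hv0 : Sum.elim ω ω' ∈ E := hE0 (Submodule.mem_span_singleton_self _)
  have hPR : fromBlocks (TP (diagonal ζ) k) 0 0 (TP (diagonal ζ) k') * P =
      P * fromBlocks (TP (diagonal ζ) k) 0 0 (TP (diagonal ζ) k') := by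
    have h1 : ∀ x ∈ 𝔤, bd k k' x * P = P * bd k k' x := by
      intro x hx
      refine hP4 _ (hE1 _ ⟨x, hx, rfl⟩) ?_
      rw [bd_star]
      exact hE1 _ ⟨_, hA.star x hx, rfl⟩
    obtain ⟨P11, P12, P21, P22, hPe⟩ : ∃ P11 P12 P21 P22, P = fromBlocks P11 P12 P21 P22 :=
      ⟨_, _, _, _, (fromBlocks_toBlocks P).symm⟩
    subst hPe
    have h2 : ∀ x ∈ 𝔤, (dTP x k * P11 = P11 * dTP x k ∧ dTP x k * P12 = P12 * dTP x k') ∧
        (dTP x k' * P21 = P21 * dTP x k ∧ dTP x k' * P22 = P22 * dTP x k') := by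
      intro x hx
      have h3 := h1 x hx
      rw [bd_apply, fromBlocks_multiply, fromBlocks_multiply, fromBlocks_inj] at h3
      simp only [Matrix.mul_zero, Matrix.zero_mul, add_zero, zero_add] at h3
      exact ⟨⟨h3.1, h3.2.1⟩, h3.2.2.1, h3.2.2.2⟩
    have c11 : TP (diagonal ζ) k * P11 = P11 * TP (diagonal ζ) k :=
      hK k k hk hk P11 fun x hx => (h2 x hx).1.1
    have c12 : TP (diagonal ζ) k * P12 = P12 * TP (diagonal ζ) k' :=
      hK k' k hk' hk P12 fun x hx => (h2 x hx).1.2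
    have c21 : TP (diagonal ζ) k' * P21 = P21 * TP (diagonal ζ) k :=
      hK k k' hk hk' P21 fun x hx => (h2 x hx).2.1
    have c22 : TP (diagonal ζ) k' * P22 = P22 * TP (diagonal ζ) k' :=
      hK k' k' hk' hk' P22 fun x hx => (h2 x hx).2.2
    rw [fromBlocks_multiply, fromBlocks_multiply]
    simp only [Matrix.mul_zero, Matrix.zero_mul, add_zero, zero_add]
    rw [c11, c12, c21, c22]
  have hR : fromBlocks (TP (diagonal ζ) k) 0 0 (TP (diagonal ζ) k') *ᵥ Sum.elim ω ω' =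
      Sum.elim (c • ω) (c' • ω') := by
    rw [fb_mulVec, hωζ, hωζ']
  have hRE : Sum.elim (c • ω) (c' • ω') ∈ E := by
    rw [← hR]
    have h1 : fromBlocks (TP (diagonal ζ) k) 0 0 (TP (diagonal ζ) k') *ᵥ Sum.elim ω ω' =
        P *ᵥ (fromBlocks (TP (diagonal ζ) k) 0 0 (TP (diagonal ζ) k') *ᵥ Sum.elim ω ω') := by
      rw [Matrix.mulVec_mulVec, ← hPR, ← Matrix.mulVec_mulVec, hP3 _ hv0]
    rw [h1]
    exact hP2 _
  have hfin := hE3 _ hRE (by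
    rintro _ ⟨x, hx, rfl⟩
    rw [bd_mulVec, Matrix.mulVec_smul, Matrix.mulVec_smul, npos_kill hS hωe hx,
      npos_kill hS hωe' hx, smul_zero, smul_zero]
    funext i
    rcases i with i | i <;> rfl)
  obtain ⟨l, hl⟩ := Submodule.mem_span_singleton.1 hfin
  have e1 : l • ω = c • ω := by
    funext i
    exact congrFun hl (Sum.inl i)
  have e2 : l • ω' = c' • ω' := by
    funext i
    exact congrFun hl (Sum.inr i)
  rw [← smul_left_injective ℂ hω0 e1, ← smul_left_injective ℂ hω0' e2]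

end

end Pool.Agent.Q211.ZG
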