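import Pool.Agent.Q211.ZG.Bas

/-!
Project ZG, job ROT.
-/

set_option autoImplicit false

namespace Pool.Agent.Q211.ZG

open Matrix Pool.Agent.Q60.ED Pool.Agent.Q271.ZG
open scoped ComplexOrder

variable {ι : Type} [Fintype ι] [DecidableEq ι]

omit [Fintype ι] in
theorem dg_smul (c : ℝ) (s : ι → ℝ) : dg (c • s) = (c : ℂ) • dg s := by
  ext i j
  rw [dg, dg, Matrix.smul_apply, Matrix.diagonal_apply, Matrix.diagonal_apply]
  by_cases h : i = j
  · rw [if_pos h, if_pos h, Pi.smul_apply, smul_eq_mul, smul_eq_mul]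
    push_cast
    rfl
  · rw [if_neg h, if_neg h, smul_zero]

omit [Fintype ι] in
theorem dg_add (s t : ι → ℝ) : dg (s + t) = dg s + dg t := by
  ext i j
  rw [dg, dg, dg, Matrix.add_apply, Matrix.diagonal_apply, Matrix.diagonal_apply,
    Matrix.diagonal_apply]
  by_cases h : i = j
  · rw [if_pos h, if_pos h, if_pos h, Pi.add_apply]
    push_cast
    rfl
  · rw [if_neg h, if_neg h, if_neg h, add_zero]

/-- the torus -/
def Tor (𝔤 : Submodule ℂ (Matrix ι ι ℂ)) : Submodule ℝ (ι → ℝ) where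
  carrier := {s | dg s ∈ 𝔤}
  add_mem' {s t} hs ht := by
    change dg (s + t) ∈ 𝔤
    rw [dg_add]
    exact add_mem hs ht
  zero_mem' := by
    change dg 0 ∈ 𝔤
    have h : (dg 0 : Matrix ι ι ℂ) = 0 := by
      rw [dg]
      ext i j
      simp [Matrix.diagonal_apply]
    rw [h]
    exact zero_mem _
  smul_mem' c s hs := by
    change dg (c • s) ∈ 𝔤
    rw [dg_smul]
    exact Submodule.smul_mem _ _ hs

/-- the roots are in the torus -/
theorem root_mem {𝔤 : Submodule ℂ (Matrix ι ι ℂ)} {ρ : ι → ℝ} {r : ℕ}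
    {e : Fin r → Matrix ι ι ℂ} {α : Fin r → ι → ℝ} (h : Adapted 𝔤 ρ) (hS : Simple 𝔤 ρ r e α)
    (a : Fin r) : dg (α a) ∈ 𝔤 := by
  rw [← hS.self a]
  exact h.lie _ (hS.mem a) _ (h.star _ (hS.mem a))

omit [DecidableEq ι] in
/-- prescribed scalar products -/
theorem exists_angle {r : ℕ} {α : Fin r → ι → ℝ} (hα : LinearIndependent ℝ α)
    (θ : Fin r → ℝ) : ∃ c : Fin r → ℝ, ∀ a, α a ⬝ᵥ (∑ b, c b • α b) = θ a := by
  obtain ⟨Ψ, hΨ⟩ : ∃ Ψ : (Fin r → ℝ) →ₗ[ℝ] (Fin r → ℝ), ∀ c a,
      Ψ c a = α a ⬝ᵥ (∑ b, c b • α b) := by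
    refine ⟨{
      toFun := fun c a => α a ⬝ᵥ (∑ b, c b • α b)
      map_add' := fun c d => ?_
      map_smul' := fun t c => ?_ }, fun _ _ => rfl⟩
    · funext a
      simp only [Pi.add_apply, add_smul, Finset.sum_add_distrib, dotProduct_add]
    · funext a
      simp only [Pi.smul_apply, smul_eq_mul, RingHom.id_apply, mul_smul, ← Finset.smul_sum,
        dotProduct_smul]
  have hinj : Function.Injective Ψ := by
    rw [injective_iff_map_eq_zero]
    intro c hc
    have h1 : (∑ b, c b • α b) ⬝ᵥ (∑ b, c b • α b) = 0 := by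
      have h2 : (∑ b, c b • α b) ⬝ᵥ (∑ b, c b • α b) = ∑ a, c a * Ψ c a := by
        conv_lhs => rw [sum_dotProduct]
        refine Finset.sum_congr rfl fun a _ => ?_
        rw [smul_dotProduct, hΨ, smul_eq_mul]
      rw [h2, hc]
      simp
    have h3 : ∑ b, c b • α b = 0 := dotProduct_self_eq_zero.1 h1
    funext b
    exact Fintype.linearIndependent_iff.1 hα c h3 b
  obtain ⟨c, hc⟩ := LinearMap.injective_iff_surjective.1 hinj θ
  exact ⟨c, fun a => by rw [← hΨ, hc]⟩

theorem edg_mul (s : ι → ℝ) (x : Matrix ι ι ℂ) (i j : ι) :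
    (edg s * x) i j = Complex.exp (Complex.I * s i) * x i j := by
  rw [edg, Matrix.diagonal_mul]

theorem mul_edg (s : ι → ℝ) (x : Matrix ι ι ℂ) (i j : ι) :
    (x * edg s) i j = x i j * Complex.exp (Complex.I * s j) := by
  rw [edg, Matrix.mul_diagonal]

omit [Fintype ι] in
theorem edg_star (s : ι → ℝ) : (edg s)ᴴ = edg (-s) := by
  rw [edg, edg, Matrix.diagonal_conjTranspose]
  congr 1
  funext j
  rw [Pi.star_apply, Complex.star_def, ← Complex.exp_conj, map_mul, Complex.conj_I,
    Complex.conj_ofReal, Pi.neg_apply]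
  push_cast
  ring_nf

theorem edg_neg (s : ι → ℝ) : edg s * edg (-s) = 1 := by
  rw [edg, edg, Matrix.diagonal_mul_diagonal, ← Matrix.diagonal_one]
  congr 1
  funext j
  rw [← Complex.exp_add, Pi.neg_apply]
  push_cast
  rw [mul_neg, add_neg_cancel, Complex.exp_zero]

/-- unitary matrices: commutation with the adjoint -/
theorem comm_star {w x : Matrix ι ι ℂ} (hw : w * wᴴ = 1) (h : w * x = x * w) :
    w * xᴴ = xᴴ * w := by
  have hw' : wᴴ * w = 1 := mul_eq_one_comm.1 hw
  have h1 : xᴴ * wᴴ = wᴴ * xᴴ := by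
    rw [← Matrix.conjTranspose_mul, ← Matrix.conjTranspose_mul, h]
  calc w * xᴴ = w * xᴴ * (wᴴ * w) := by rw [hw', Matrix.mul_one]
    _ = w * (xᴴ * wᴴ) * w := by simp only [Matrix.mul_assoc]
    _ = w * (wᴴ * xᴴ) * w := by rw [h1]
    _ = (w * wᴴ) * xᴴ * w := by simp only [Matrix.mul_assoc]
    _ = xᴴ * w := by rw [hw, Matrix.one_mul]

/-- a unitary matrix which commutes with the simple root vectors and the torus commutes with `𝔤` -/
theorem comm_all {𝔤 : Submodule ℂ (Matrix ι ι ℂ)} {ρ : ι → ℝ} {r : ℕ}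
    {e : Fin r → Matrix ι ι ℂ} {α : Fin r → ι → ℝ} (h : Adapted 𝔤 ρ) (hS : Simple 𝔤 ρ r e α)
    {w : Matrix ι ι ℂ} (hw : w * wᴴ = 1) (h1 : ∀ a, w * e a = e a * w)
    (h2 : ∀ s : ι → ℝ, dg s ∈ 𝔤 → w * dg s = dg s * w) : ∀ x ∈ 𝔤, w * x = x * w := by
  have hpos : ∀ x ∈ 𝔤, Pos ρ x → w * x = x * w := by
    intro x hx hp
    obtain ⟨𝔫, h𝔫⟩ : ∃ 𝔫 : Submodule ℂ (Matrix ι ι ℂ), ∀ y, y ∈ 𝔫 ↔ w * y = y * w := by
      refine ⟨{
        carrier := {y | w * y = y * w}
        add_mem' := fun {a b} ha hb => ?_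
        zero_mem' := ?_
        smul_mem' := fun c a ha => ?_ }, fun _ => Iff.rfl⟩
      · change w * (a + b) = (a + b) * w
        rw [Matrix.mul_add, Matrix.add_mul, ha, hb]
      · change w * 0 = 0 * w
        rw [Matrix.mul_zero, Matrix.zero_mul]
      · change w * (c • a) = (c • a) * w
        rw [Matrix.mul_smul, Matrix.smul_mul, ha]
    refine (h𝔫 x).1 (hS.gen 𝔫 (fun a => (h𝔫 _).2 (h1 a)) (fun a ha b hb => ?_) x hx hp)
    rw [h𝔫] at ha hb ⊢
    rw [Matrix.mul_sub, Matrix.sub_mul, ← Matrix.mul_assoc, ha, Matrix.mul_assoc, hb,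
      ← Matrix.mul_assoc w b, hb, Matrix.mul_assoc b w, ha]
    simp only [Matrix.mul_assoc]
  intro x hx
  obtain ⟨a, ha, b, hb, c, hc, pa, pb, hcd, rfl⟩ := split3 h hx
  obtain ⟨s, t, hs, ht, rfl⟩ := diag_parts h.star hc hcd
  rw [Matrix.mul_add, Matrix.mul_add, Matrix.mul_add, Matrix.mul_smul, Matrix.add_mul,
    Matrix.add_mul, Matrix.add_mul, Matrix.smul_mul, hpos a ha pa,
    comm_star hw (hpos b hb pb), h2 s hs, h2 t ht]

/-- **Job ROT.** -/
theorem main_ROT : S_ROT := by
  intro ι _ _ 𝔤 ρ r e α hA hS v hv hρ hn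
  have hv' : vᴴ * v = 1 := mul_eq_one_comm.1 hv
  have hvs : ∀ s : ι → ℝ, dg s ∈ 𝔤 → v * dg s = dg s * v := by
    intro s hs
    ext i j
    rw [mul_dg, dg_mul]
    by_cases h : v i j = 0
    · rw [h, zero_mul, mul_zero]
    · have h1 := hA.gen s hs i j i i (by rw [hρ i j h, sub_self])
      rw [sub_self, sub_eq_zero] at h1
      rw [h1, mul_comm]
  have hwt : ∀ a (s : ι → ℝ), dg s ∈ 𝔤 → dg s * e a - e a * dg s =
      ((α a ⬝ᵥ s : ℝ) : ℂ) • e a := by
    intro a s hs
    ext i j
    rw [Matrix.sub_apply, dg_mul, mul_dg, Matrix.smul_apply, smul_eq_mul]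
    by_cases h : e a i j = 0
    · rw [h, mul_zero, zero_mul, mul_zero, sub_zero]
    · rw [← hS.wt a s hs i j h]
      push_cast
      ring
  have hc : ∀ a, ∃ c : ℂ, v * e a * vᴴ = c • e a := by
    intro a
    refine hS.one a _ (hn _ (hS.mem a)) fun s hs i j hij => ?_
    have h1 : dg s * (v * e a * vᴴ) - (v * e a * vᴴ) * dg s =
        ((α a ⬝ᵥ s : ℝ) : ℂ) • (v * e a * vᴴ) := by
      have h2 : vᴴ * dg s = dg s * vᴴ := by
        calc vᴴ * dg s = vᴴ * dg s * (v * vᴴ) := by rw [hv, Matrix.mul_one]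
          _ = vᴴ * (dg s * v) * vᴴ := by simp only [Matrix.mul_assoc]
          _ = vᴴ * (v * dg s) * vᴴ := by rw [hvs s hs]
          _ = (vᴴ * v) * dg s * vᴴ := by simp only [Matrix.mul_assoc]
          _ = dg s * vᴴ := by rw [hv', Matrix.one_mul]
      calc dg s * (v * e a * vᴴ) - (v * e a * vᴴ) * dg s =
            (dg s * v) * e a * vᴴ - v * e a * (vᴴ * dg s) := by simp only [Matrix.mul_assoc]
        _ = (v * dg s) * e a * vᴴ - v * e a * (dg s * vᴴ) := by rw [hvs s hs, h2]
        _ = v * (dg s * e a - e a * dg s) * vᴴ := by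
            simp only [Matrix.mul_sub, Matrix.sub_mul, Matrix.mul_assoc]
        _ = _ := by rw [hwt a s hs, Matrix.mul_smul, Matrix.smul_mul]
    have h3 := congrFun (congrFun h1 i) j
    rw [Matrix.sub_apply, dg_mul, mul_dg, Matrix.smul_apply, smul_eq_mul, mul_comm _ (s j : ℂ),
      ← sub_mul] at h3
    have h4 := mul_right_cancel₀ hij h3
    exact_mod_cast h4
  choose c hc using hc
  have hnorm : ∀ a, ‖c a‖ = 1 := by
    intro a
    have h1 : v * dg (α a) * vᴴ = dg (α a) := by
      rw [hvs _ (root_mem hA hS a), Matrix.mul_assoc, hv, Matrix.mul_one]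
    have h2 : v * dg (α a) * vᴴ = (c a * star (c a)) • dg (α a) := by
      have h3 : v * (e a)ᴴ * vᴴ = star (c a) • (e a)ᴴ := by
        have h4 := congrArg Matrix.conjTranspose (hc a)
        rw [Matrix.conjTranspose_mul, Matrix.conjTranspose_mul, Matrix.conjTranspose_conjTranspose,
          Matrix.conjTranspose_smul, ← Matrix.mul_assoc] at h4
        exact h4
      have h5 : ∀ x y : Matrix ι ι ℂ, v * (x * y) * vᴴ = (v * x * vᴴ) * (v * y * vᴴ) := by
        intro x y
        calc v * (x * y) * vᴴ = v * x * 1 * y * vᴴ := by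
              rw [Matrix.mul_one]
              simp only [Matrix.mul_assoc]
          _ = v * x * (vᴴ * v) * y * vᴴ := by rw [hv']
          _ = _ := by simp only [Matrix.mul_assoc]
      rw [← hS.self a, Matrix.mul_sub, Matrix.sub_mul, h5, h5, hc a, h3, Matrix.smul_mul,
        Matrix.mul_smul, Matrix.smul_mul, Matrix.mul_smul, smul_smul, smul_smul, smul_sub,
        mul_comm (star (c a))]
    rw [h1] at h2
    have hne : ∃ i, α a i ≠ 0 := by
      by_contra hcon
      push Not at hcon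
      have h3 := hS.pos a
      have h4 : α a = 0 := funext hcon
      rw [h4, zero_dotProduct] at h3
      exact lt_irrefl _ h3
    obtain ⟨i, hi⟩ := hne
    have h3 := congrFun (congrFun h2 i) i
    rw [Matrix.smul_apply, dg, Matrix.diagonal_apply_eq, smul_eq_mul] at h3
    have h4 : (c a * star (c a)) = 1 := by
      have h5 : (α a i : ℂ) ≠ 0 := by exact_mod_cast hi
      exact mul_right_cancel₀ h5 (by rw [one_mul]; exact h3.symm)
    rw [Complex.star_def, Complex.mul_conj, Complex.normSq_eq_norm_sq] at h4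
    have h5 : ‖c a‖ ^ 2 = 1 := by exact_mod_cast h4
    nlinarith [norm_nonneg (c a)]
  obtain ⟨q, hq⟩ := exists_angle hS.indep fun a => -(c a).arg
  obtain ⟨s, hs⟩ : ∃ s : ι → ℝ, s = ∑ b, q b • α b := ⟨_, rfl⟩
  rw [← hs] at hq
  have hsg : dg s ∈ 𝔤 := by
    have h1 : s ∈ Tor 𝔤 := by
      rw [hs]
      exact Submodule.sum_mem _ fun b _ => Submodule.smul_mem _ _ (root_mem hA hS b)
    exact h1
  refine ⟨s, hsg, comm_all hA hS ?_ (fun a => ?_) fun t ht => ?_⟩
  · rw [Matrix.conjTranspose_mul, edg_star, Matrix.mul_assoc, ← Matrix.mul_assoc (edg s),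
      edg_neg, Matrix.one_mul, hv]
  · -- the root vectors
    have h1 : edg s * e a = Complex.exp (-(Complex.I * (c a).arg)) • (e a * edg s) := by
      ext i j
      rw [edg_mul, Matrix.smul_apply, mul_edg, smul_eq_mul]
      by_cases h : e a i j = 0
      · rw [h, mul_zero, zero_mul, mul_zero]
      · have h2 := hS.wt a s hsg i j h
        rw [hq a] at h2
        have h3 : Complex.exp (Complex.I * s i) = Complex.exp (-(Complex.I * (c a).arg)) *
            Complex.exp (Complex.I * s j) := by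
          rw [← Complex.exp_add]
          congr 1
          have h4 : (s i : ℂ) = s j - (c a).arg := by
            have h5 : s i = s j - (c a).arg := by linarith
            exact_mod_cast h5
          rw [h4]
          ring
        rw [h3]
        ring
    have h2 : v * e a = c a • (e a * v) := by
      have h3 := congrArg (fun m => m * v) (hc a)
      beta_reduce at h3
      rw [Matrix.mul_assoc, hv', Matrix.mul_one, Matrix.smul_mul] at h3
      exact h3
    have h3 : Complex.exp (-(Complex.I * (c a).arg)) * c a = 1 := by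
      have h4 := Complex.norm_mul_exp_arg_mul_I (c a)
      rw [hnorm a] at h4
      rw [← h4]
      simp only [Complex.ofReal_one, one_mul]
      rw [Complex.arg_exp_mul_I, ← Complex.exp_add]
      rw [show toIocMod Real.two_pi_pos (-Real.pi) (c a).arg = (c a).arg from
        (toIocMod_eq_self Real.two_pi_pos).2 ⟨Complex.neg_pi_lt_arg _, by
          have := Complex.arg_le_pi (c a)
          linarith⟩]
      rw [mul_comm Complex.I, neg_add_cancel, Complex.exp_zero]
    rw [Matrix.mul_assoc, h1, Matrix.mul_smul, ← Matrix.mul_assoc, h2, Matrix.smul_mul,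
      smul_smul, h3, one_smul, Matrix.mul_assoc]
  · have h1 : edg s * dg t = dg t * edg s := by
      rw [edg, dg, Matrix.diagonal_mul_diagonal, Matrix.diagonal_mul_diagonal]
      congr 1
      funext j
      exact mul_comm _ _
    rw [Matrix.mul_assoc, h1, ← Matrix.mul_assoc, hvs t ht, Matrix.mul_assoc]

end Pool.Agent.Q211.ZG
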