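import Pool.Agent.Q271.ZG.Basic
import Pool.Agent.Q211.ZG.PRJ
import Pool.Agent.Q211.ZG.HWE

/-!
Project ZG, job TOP.
-/

set_option autoImplicit false

namespace Pool.Agent.Q211.ZG

open Matrix Pool.Agent.Q60.ED Pool.Agent.Q271.ZG

section

variable {ι : Type} [Fintype ι] [DecidableEq ι]

/-- the commutant -/
def cmt (𝔤 : Submodule ℂ (Matrix ι ι ℂ)) : Submodule ℂ (Matrix ι ι ℂ) where
  carrier := {c | ∀ x ∈ 𝔤, c * x = x * c}
  add_mem' := fun {c d} hc hd x hx => by
    rw [add_mul, mul_add, hc x hx, hd x hx]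
  zero_mem' := fun x _ => by rw [zero_mul, mul_zero]
  smul_mem' := fun a c hc x hx => by
    rw [smul_mul_assoc, mul_smul_comm, hc x hx]

/-- the column -/
def colL (k : ι) : Matrix ι ι ℂ →ₗ[ℂ] (ι → ℂ) where
  toFun c := fun i => c i k
  map_add' _ _ := rfl
  map_smul' _ _ := rfl

theorem colL_apply (k : ι) (c : Matrix ι ι ℂ) (i : ι) : colL k c i = c i k := rfl

theorem mulVec_colL (x c : Matrix ι ι ℂ) (k : ι) : x *ᵥ colL k c = colL k (x * c) := by
  funext i
  rw [colL_apply, Matrix.mul_apply, Matrix.mulVec, dotProduct]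
  rfl

theorem mul_col_zero {c x : Matrix ι ι ℂ} {k : ι} (h : ∀ i, x i k = 0) (i : ι) :
    (c * x) i k = 0 := by
  rw [Matrix.mul_apply]
  exact Finset.sum_eq_zero fun l _ => by rw [h l, mul_zero]

theorem kill_col {𝔤 : Submodule ℂ (Matrix ι ι ℂ)} {ρ : ι → ℝ} {r : ℕ}
    {e : Fin r → Matrix ι ι ℂ} {α : Fin r → ι → ℝ} (hS : Simple 𝔤 ρ r e α) {k : ι}
    (hk : ∀ a i, e a i k = 0) {x : Matrix ι ι ℂ} (hx : x ∈ npos 𝔤 ρ) (i : ι) : x i k = 0 := by
  let N : Submodule ℂ (Matrix ι ι ℂ) :=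
    { carrier := {x | ∀ i, x i k = 0}
      add_mem' := fun {x y} hx hy i => by
        rw [Matrix.add_apply, hx i, hy i, add_zero]
      zero_mem' := fun i => rfl
      smul_mem' := fun c x hx i => by
        rw [Matrix.smul_apply, hx i, smul_zero] }
  have h1 := hS.gen N (fun a i => hk a i) (fun x hx y hy i => by
    rw [Matrix.sub_apply, mul_col_zero hx, mul_col_zero hy, sub_zero]) x hx.1 (fun i j hij => by
        by_contra h5
        exact hij (hx.2 i j h5))
  exact h1 i

theorem eq_diagonal_of {z : Matrix ι ι ℂ} (h : ∀ i j, i ≠ j → z i j = 0) :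
    z = diagonal fun j => z j j := by
  ext i j
  by_cases hij : i = j
  · subst hij
    rw [Matrix.diagonal_apply_eq]
  · rw [Matrix.diagonal_apply_ne _ hij, h i j hij]

theorem star_cmt {𝔤 : Submodule ℂ (Matrix ι ι ℂ)} (h : IsStar 𝔤) {c : Matrix ι ι ℂ}
    (hc : c ∈ cmt 𝔤) : cᴴ ∈ cmt 𝔤 := by
  intro x hx
  have h1 := congrArg conjTranspose (hc xᴴ (h x hx))
  rw [conjTranspose_mul, conjTranspose_mul, conjTranspose_conjTranspose] at h1
  exact h1.symm

/-- a coordinate vector killed by the simple root vectors has the weight of the top one -/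
theorem key_top {𝔤 : Submodule ℂ (Matrix ι ι ℂ)} {ρ : ι → ℝ} {r : ℕ}
    {e : Fin r → Matrix ι ι ℂ} {α : Fin r → ι → ℝ} (hA : Adapted 𝔤 ρ) (hS : Simple 𝔤 ρ r e α)
    {k m : ι} (hk : ∀ a i, e a i k = 0) (hm : ∀ a i, e a i m = 0)
    (hkm : ∀ z ∈ Ctr 𝔤, z k k = z m m) {s : ι → ℝ} (hs : dg s ∈ 𝔤) : s k = s m := by
  have hdiag : ∀ x : Matrix ι ι ℂ, (∀ i j, i ≠ j → x i j = 0) → ∀ c : Matrix ι ι ℂ,
      colL k (c * x) = x k k • colL k c := by
    intro x hx c
    funext i
    rw [colL_apply, Matrix.mul_apply, Finset.sum_eq_single k]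
    · rw [Pi.smul_apply, colL_apply, smul_eq_mul, mul_comm]
    · intro l _ hl
      rw [hx l k hl, mul_zero]
    · intro h
      exact absurd (Finset.mem_univ _) h
  obtain ⟨E, hE0, hE1, hE2, hE3⟩ := main_DOM ι 𝔤 (npos 𝔤 ρ) (hdia 𝔤) hA.star hA.lie
    (fun x hx => hx.1) (fun x hx => hx.1) (fun x hx => split_npos hA hx)
    ((cmt 𝔤).map (colL k)) (by
      rintro x hx _ ⟨c, hc, rfl⟩
      rw [mulVec_colL, ← hc x hx.1]
      funext i
      exact mul_col_zero (kill_col hS hk hx) i) (by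
      rintro x hx _ ⟨c, hc, rfl⟩
      rw [mulVec_colL, ← hc x hx.1, hdiag x hx.2]
      exact Submodule.smul_mem _ _ ⟨c, hc, rfl⟩)
  have hE4 : ∀ c ∈ cmt 𝔤, ∀ v ∈ E, c *ᵥ v ∈ E := by
    intro c hc
    refine hE2 (E.comap (Matrix.mulVecLin c)) ?_ ?_
    · rintro _ ⟨d, hd, rfl⟩
      change c *ᵥ colL k d ∈ E
      rw [mulVec_colL]
      refine hE0 ⟨c * d, fun x hx => ?_, rfl⟩
      rw [Matrix.mul_assoc, hd x hx, ← Matrix.mul_assoc, hc x hx, Matrix.mul_assoc]
    · intro x hx v hv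
      have hv' : c *ᵥ v ∈ E := hv
      change c *ᵥ (x *ᵥ v) ∈ E
      rw [Matrix.mulVec_mulVec, hc x hx, ← Matrix.mulVec_mulVec]
      exact hE1 x hx _ hv'
  obtain ⟨P, -, hP2, hP3, hP4⟩ := main_PRJ ι E
  have hPC : P ∈ Ctr 𝔤 := by
    constructor
    · intro x hx
      exact (hP4 x (hE1 x hx) (hE1 _ (hA.star x hx))).symm
    · intro c hc
      exact (hP4 c (hE4 c hc) (hE4 _ (star_cmt hA.star hc))).symm
  have hone : (1 : Matrix ι ι ℂ) ∈ cmt 𝔤 := fun x _ => by rw [one_mul, mul_one]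
  have hPk : P k k = 1 := by
    have h1 := hP3 _ (hE0 ⟨1, hone, rfl⟩ : colL k 1 ∈ E)
    have h2 := congrFun h1 k
    rw [mulVec_colL, Matrix.mul_one, colL_apply, colL_apply, Matrix.one_apply_eq] at h2
    exact h2
  have hPm : colL m (1 : Matrix ι ι ℂ) ∈ E := by
    have h1 : P *ᵥ colL m (1 : Matrix ι ι ℂ) = colL m 1 := by
      rw [mulVec_colL, Matrix.mul_one]
      funext i
      rw [colL_apply, colL_apply]
      by_cases him : i = m
      · subst him
        rw [← hkm P hPC, hPk, Matrix.one_apply_eq]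
      · rw [hA.ctr P hPC i m him, Matrix.one_apply_ne him]
    rw [← h1]
    exact hP2 _
  obtain ⟨c, hc, hcm⟩ := hE3 _ hPm (fun x hx => by
    rw [mulVec_colL, Matrix.mul_one]
    funext i
    exact kill_col hS hm hx i)
  have h3 : dg s *ᵥ colL k c = (s k : ℂ) • colL k c := by
    rw [mulVec_colL, ← hc _ hs, hdiag (dg s) (fun i j hij => Matrix.diagonal_apply_ne _ hij), dg,
      Matrix.diagonal_apply_eq]
  rw [hcm, mulVec_colL, Matrix.mul_one] at h3
  have h4 := congrFun h3 m
  rw [colL_apply, Pi.smul_apply, colL_apply, dg, Matrix.diagonal_apply_eq, Matrix.one_apply_eq,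
    smul_eq_mul, mul_one] at h4
  exact (Complex.ofReal_injective h4).symm

/-- **Job TOP.** -/
theorem main_TOP : S_TOP := by
  intro ι _ _ 𝔤 ρ r e α hA hS
  classical
  obtain ⟨R, hR⟩ : ∃ R : ι → ι → Prop, ∀ j k, R j k ↔ ∀ z ∈ Ctr 𝔤, z j j = z k k :=
    ⟨_, fun _ _ => Iff.rfl⟩
  have hrefl : ∀ j, R j j := fun j => (hR j j).2 fun _ _ => rfl
  have hsymm : ∀ {j k}, R j k → R k j := fun {j k} h => (hR k j).2 fun z hz =>
    ((hR j k).1 h z hz).symm
  have htrans : ∀ {j k l}, R j k → R k l → R j l := fun {j k l} h h' => (hR j l).2 fun z hz =>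
    ((hR j k).1 h z hz).trans ((hR k l).1 h' z hz)
  have hcls : ∀ x ∈ 𝔤, ∀ i j, x i j ≠ 0 → R i j := by
    intro x hx i j hij
    rw [hR]
    intro z hz
    have h1 := hz.1 x hx
    rw [eq_diagonal_of (hA.ctr z hz)] at h1
    have h2 := congrFun (congrFun h1 i) j
    rw [Matrix.diagonal_mul, Matrix.mul_diagonal, mul_comm] at h2
    exact mul_left_cancel₀ hij h2
  have htop : ∀ j, ∃ k, R j k ∧ ∀ l, R j l → ρ l ≤ ρ k := by
    intro j
    obtain ⟨k, hk, hk'⟩ := Finset.exists_max_image (Finset.univ.filter (R j)) ρ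
      ⟨j, Finset.mem_filter.2 ⟨Finset.mem_univ _, hrefl j⟩⟩
    exact ⟨k, (Finset.mem_filter.1 hk).2, fun l hl =>
      hk' l (Finset.mem_filter.2 ⟨Finset.mem_univ _, hl⟩)⟩
  choose top htop1 htop2 using htop
  have hraise : ∀ a i j, e a i j ≠ 0 → R i j ∧ ρ j < ρ i := by
    intro a i j hij
    refine ⟨hcls _ (hS.mem a) i j hij, ?_⟩
    have h1 := hS.wt a ρ hA.mem i j hij
    have h2 := hS.pos a
    linarith
  have hkill : ∀ a i j, e a i (top j) = 0 := by
    intro a i j
    by_contra h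
    obtain ⟨h1, h2⟩ := hraise a i (top j) h
    exact absurd (htop2 j i (htrans (htop1 j) (hsymm h1))) (not_le.2 h2)
  have hsame : ∀ j j', R j j' → ∀ s : ι → ℝ, dg s ∈ 𝔤 → s (top j) = s (top j') := by
    intro j j' h s hs
    refine hA.eq_of hs (le_antisymm ?_ ?_)
    · exact htop2 j' _ (htrans (hsymm h) (htop1 j))
    · exact htop2 j _ (htrans h (htop1 j'))
  have hchain : ∀ N : ℕ, ∀ j, (Finset.univ.filter fun l => R j l ∧ ρ j < ρ l).card ≤ N →
      ∃ n : Fin r → ℕ, (∀ s : ι → ℝ, dg s ∈ 𝔤 → s (top j) - s j = ∑ a, (n a : ℝ) * (α a ⬝ᵥ s)) ∧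
        ∑ a, n a ≤ (Finset.univ.filter fun l => R j l ∧ ρ j < ρ l).card := by
    intro N
    induction N with
    | zero =>
      intro j hj
      have hk : ∀ a i, e a i j = 0 := by
        intro a i
        by_contra h
        obtain ⟨h1, h2⟩ := hraise a i j h
        have h3 : i ∈ Finset.univ.filter fun l => R j l ∧ ρ j < ρ l :=
          Finset.mem_filter.2 ⟨Finset.mem_univ _, hsymm h1, h2⟩
        rw [Finset.card_eq_zero.1 (Nat.le_zero.1 hj)] at h3
        exact absurd h3 (Finset.notMem_empty _)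
      refine ⟨fun _ => 0, fun s hs => ?_, ?_⟩
      · rw [key_top hA hS hk (fun a i => hkill a i j) (fun z hz => (hR _ _).1 (htop1 j) z hz) hs,
          sub_self]
        simp
      · simp
    | succ N ih =>
      intro j hj
      by_cases hk : ∀ a i, e a i j = 0
      · refine ⟨fun _ => 0, fun s hs => ?_, ?_⟩
        · rw [key_top hA hS hk (fun a i => hkill a i j) (fun z hz => (hR _ _).1 (htop1 j) z hz) hs,
            sub_self]
          simp
        · simp
      · push Not at hk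
        obtain ⟨a, i, hai⟩ := hk
        obtain ⟨h1, h2⟩ := hraise a i j hai
        have h3 : (Finset.univ.filter fun l => R i l ∧ ρ i < ρ l) ⊂
            Finset.univ.filter fun l => R j l ∧ ρ j < ρ l := by
          rw [Finset.ssubset_iff_of_subset]
          · exact ⟨i, Finset.mem_filter.2 ⟨Finset.mem_univ _, hsymm h1, h2⟩, fun h =>
              absurd (Finset.mem_filter.1 h).2.2 (lt_irrefl _)⟩
          · intro l hl
            obtain ⟨-, h4, h5⟩ := Finset.mem_filter.1 hl
            exact Finset.mem_filter.2 ⟨Finset.mem_univ _, htrans (hsymm h1) h4, h2.trans h5⟩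
        have h6 := Finset.card_lt_card h3
        obtain ⟨n, hn1, hn2⟩ := ih i (by omega)
        refine ⟨fun b => n b + if b = a then 1 else 0, fun s hs => ?_, ?_⟩
        · have h7 := hn1 s hs
          have h8 := hS.wt a s hs i j hai
          have h9 := hsame i j h1 s hs
          have h10 : ∑ b, ((n b + if b = a then 1 else 0 : ℕ) : ℝ) * (α b ⬝ᵥ s) =
              ∑ b, (n b : ℝ) * (α b ⬝ᵥ s) + α a ⬝ᵥ s := by
            simp only [Nat.cast_add, add_mul, Finset.sum_add_distrib]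
            congr 1
            rw [Finset.sum_eq_single a]
            · rw [if_pos rfl, Nat.cast_one, one_mul]
            · intro b _ hb
              rw [if_neg hb, Nat.cast_zero, zero_mul]
            · intro h
              exact absurd (Finset.mem_univ _) h
          rw [h10]
          linarith
        · rw [Finset.sum_add_distrib, Finset.sum_ite_eq' Finset.univ a, if_pos (Finset.mem_univ _)]
          omega
  choose n hn1 hn2 using fun j => hchain _ j le_rfl
  refine ⟨top, n, ⟨?_, ?_, hkill, hn1, ?_⟩⟩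
  · intro j z hz
    exact ((hR _ _).1 (htop1 j) z hz).symm
  · intro j j' h
    exact hsame j j' ((hR _ _).2 h)
  · intro j
    have h1 : (Finset.univ.filter fun l => R j l ∧ ρ j < ρ l) ⊂ Finset.univ := by
      rw [Finset.ssubset_univ_iff]
      intro h
      have h2 : j ∈ Finset.univ.filter fun l => R j l ∧ ρ j < ρ l := by
        rw [h]
        exact Finset.mem_univ j
      exact absurd (Finset.mem_filter.1 h2).2.2 (lt_irrefl _)
    have h3 := Finset.card_lt_card h1
    rw [Finset.card_univ] at h3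
    have h4 := hn2 j
    omega

end

end Pool.Agent.Q211.ZG
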