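import Pool.Agent.Q211.ZG.PRJ

/-!
Project ZG: basic lemmas (grading, derivations of tensors).
-/

set_option autoImplicit false

namespace Pool.Agent.Q211.ZG

open Matrix Pool.Agent.Q60.ED Pool.Agent.Q271.ZG

variable {ι : Type} [Fintype ι] [DecidableEq ι]

/-! ### Grading -/

theorem dg_mul (s : ι → ℝ) (x : Matrix ι ι ℂ) (i j : ι) : (dg s * x) i j = (s i : ℂ) * x i j := by
  rw [dg, Matrix.diagonal_mul]

theorem mul_dg (s : ι → ℝ) (x : Matrix ι ι ℂ) (i j : ι) : (x * dg s) i j = x i j * (s j : ℂ) := by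
  rw [dg, Matrix.mul_diagonal]

theorem pow_mem {𝔤 : Submodule ℂ (Matrix ι ι ℂ)} {ρ : ι → ℝ} (h : Adapted 𝔤 ρ)
    {x : Matrix ι ι ℂ} (hx : x ∈ 𝔤) (n : ℕ) :
    (Matrix.of fun i j => (((ρ i - ρ j : ℝ) : ℂ)) ^ n * x i j) ∈ 𝔤 := by
  induction n with
  | zero =>
    have e1 : (Matrix.of fun i j => (((ρ i - ρ j : ℝ) : ℂ)) ^ 0 * x i j) = x := by
      ext i j
      simp
    rw [e1]
    exact hx
  | succ n ih =>
    have e1 : (Matrix.of fun i j => (((ρ i - ρ j : ℝ) : ℂ)) ^ (n + 1) * x i j) =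
        dg ρ * (Matrix.of fun i j => (((ρ i - ρ j : ℝ) : ℂ)) ^ n * x i j) -
          (Matrix.of fun i j => (((ρ i - ρ j : ℝ) : ℂ)) ^ n * x i j) * dg ρ := by
      ext i j
      rw [Matrix.sub_apply, dg_mul, mul_dg, Matrix.of_apply, Matrix.of_apply]
      push_cast
      ring
    rw [e1]
    exact h.lie _ h.mem _ ih

theorem poly_mem {𝔤 : Submodule ℂ (Matrix ι ι ℂ)} {ρ : ι → ℝ} (h : Adapted 𝔤 ρ)
    {x : Matrix ι ι ℂ} (hx : x ∈ 𝔤) (q : Polynomial ℂ) :
    (Matrix.of fun i j => q.eval (((ρ i - ρ j : ℝ) : ℂ)) * x i j) ∈ 𝔤 := by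
  have e1 : (Matrix.of fun i j => q.eval (((ρ i - ρ j : ℝ) : ℂ)) * x i j) =
      ∑ n ∈ Finset.range (q.natDegree + 1), q.coeff n •
        (Matrix.of fun i j => (((ρ i - ρ j : ℝ) : ℂ)) ^ n * x i j) := by
    ext i j
    rw [Matrix.of_apply, Polynomial.eval_eq_sum_range, Matrix.sum_apply, Finset.sum_mul]
    refine Finset.sum_congr rfl fun n _ => ?_
    rw [Matrix.smul_apply, Matrix.of_apply, smul_eq_mul, mul_assoc]
  rw [e1]
  exact Submodule.sum_mem _ fun n _ => Submodule.smul_mem _ _ (pow_mem h hx n)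

/-- the graded parts -/
theorem part_mem {𝔤 : Submodule ℂ (Matrix ι ι ℂ)} {ρ : ι → ℝ} (h : Adapted 𝔤 ρ)
    {x : Matrix ι ι ℂ} (hx : x ∈ 𝔤) (p : ℝ → Prop) [DecidablePred p] :
    (Matrix.of fun i j => if p (ρ i - ρ j) then x i j else 0) ∈ 𝔤 := by
  classical
  have e1 : (Matrix.of fun i j => if p (ρ i - ρ j) then x i j else 0) =
      Matrix.of fun i j => (Lagrange.interpolate (Finset.univ.image fun k : ι × ι => ρ k.1 - ρ k.2)
        (fun d : ℝ => (d : ℂ)) (fun d => if p d then 1 else 0)).eval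
          (((ρ i - ρ j : ℝ) : ℂ)) * x i j := by
    ext i j
    rw [Matrix.of_apply, Matrix.of_apply, Lagrange.eval_interpolate_at_node
      (v := fun d : ℝ => (d : ℂ)) (i := ρ i - ρ j) _
      (fun a _ b _ hab => Complex.ofReal_injective hab)
      (Finset.mem_image.2 ⟨(i, j), Finset.mem_univ _, rfl⟩)]
    by_cases hp : p (ρ i - ρ j)
    · rw [if_pos hp, if_pos hp, one_mul]
    · rw [if_neg hp, if_neg hp, zero_mul]
  rw [e1]
  exact poly_mem h hx _

/-- strictly positive matrices -/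
def Pos (ρ : ι → ℝ) (x : Matrix ι ι ℂ) : Prop := ∀ i j, x i j ≠ 0 → ρ j < ρ i

/-- Every element is the sum of a positive, a negative and a diagonal one. -/
theorem split3 {𝔤 : Submodule ℂ (Matrix ι ι ℂ)} {ρ : ι → ℝ} (h : Adapted 𝔤 ρ)
    {x : Matrix ι ι ℂ} (hx : x ∈ 𝔤) : ∃ a ∈ 𝔤, ∃ b ∈ 𝔤, ∃ c ∈ 𝔤, Pos ρ a ∧ Pos ρ b ∧
      (∀ i j, i ≠ j → c i j = 0) ∧ x = a + bᴴ + c := by
  classical
  obtain ⟨a, ha⟩ : ∃ a : Matrix ι ι ℂ, a =
    Matrix.of fun i j => if 0 < ρ i - ρ j then x i j else 0 := ⟨_, rfl⟩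
  obtain ⟨b, hb⟩ : ∃ b : Matrix ι ι ℂ, b =
    Matrix.of fun i j => if ρ i - ρ j < 0 then x i j else 0 := ⟨_, rfl⟩
  obtain ⟨c, hc⟩ : ∃ c : Matrix ι ι ℂ, c =
    Matrix.of fun i j => if ρ i - ρ j = 0 then x i j else 0 := ⟨_, rfl⟩
  have ha' : a ∈ 𝔤 := ha ▸ part_mem h hx fun d => 0 < d
  have hb' : b ∈ 𝔤 := hb ▸ part_mem h hx fun d => d < 0
  have hc' : c ∈ 𝔤 := hc ▸ part_mem h hx fun d => d = 0
  refine ⟨a, ha', bᴴ, h.star _ hb', c, hc', ?_, ?_, ?_, ?_⟩
  · intro i j hij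
    by_contra hn
    apply hij
    rw [ha, Matrix.of_apply, if_neg fun h0 => hn (by linarith)]
  · intro i j hij
    by_contra hn
    apply hij
    rw [hb, Matrix.conjTranspose_apply, Matrix.of_apply, if_neg fun h0 => hn (by linarith),
      star_zero]
  · refine h.diag c hc' fun i j hij => ?_
    by_contra hn
    apply hij
    rw [hc, Matrix.of_apply, if_neg fun h0 => hn (by linarith)]
  · rw [Matrix.conjTranspose_conjTranspose]
    ext i j
    rw [Matrix.add_apply, Matrix.add_apply, ha, hb, hc, Matrix.of_apply, Matrix.of_apply,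
      Matrix.of_apply]
    rcases lt_trichotomy (ρ i - ρ j) 0 with h1 | h1 | h1
    · rw [if_neg (by linarith), if_pos h1, if_neg (by linarith)]
      ring
    · rw [if_neg (by linarith), if_neg (by linarith), if_pos h1]
      ring
    · rw [if_pos h1, if_neg (by linarith), if_neg (by linarith)]
      ring

omit [Fintype ι] in
/-- the real and imaginary parts of a diagonal element -/
theorem diag_parts {𝔤 : Submodule ℂ (Matrix ι ι ℂ)} (hs : IsStar 𝔤) {c : Matrix ι ι ℂ}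
    (hc : c ∈ 𝔤) (hd : ∀ i j, i ≠ j → c i j = 0) : ∃ s t : ι → ℝ, dg s ∈ 𝔤 ∧ dg t ∈ 𝔤 ∧
      c = dg s + Complex.I • dg t := by
  have e1 : ∀ i j, c i j = if i = j then c i i else 0 := by
    intro i j
    by_cases hij : i = j
    · rw [if_pos hij, hij]
    · rw [if_neg hij, hd i j hij]
  have h1 : dg (fun i => (c i i).re) = (2⁻¹ : ℂ) • (c + cᴴ) := by
    ext i j
    rw [dg, Matrix.diagonal_apply, Matrix.smul_apply, Matrix.add_apply,
      Matrix.conjTranspose_apply, e1 i j, e1 j i]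
    by_cases hij : i = j
    · rw [if_pos hij, if_pos hij, if_pos hij.symm, ← hij, Complex.star_def, Complex.add_conj,
        smul_eq_mul]
      push_cast
      ring
    · rw [if_neg hij, if_neg hij, if_neg fun h => hij h.symm, star_zero, add_zero, smul_zero]
  have h2 : dg (fun i => (c i i).im) = (2⁻¹ * -Complex.I : ℂ) • (c - cᴴ) := by
    ext i j
    rw [dg, Matrix.diagonal_apply, Matrix.smul_apply, Matrix.sub_apply,
      Matrix.conjTranspose_apply, e1 i j, e1 j i]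
    by_cases hij : i = j
    · rw [if_pos hij, if_pos hij, if_pos hij.symm, ← hij, Complex.star_def, Complex.sub_conj,
        smul_eq_mul]
      have h3 := Complex.I_mul_I
      push_cast
      linear_combination ((c i i).im : ℂ) * h3
    · rw [if_neg hij, if_neg hij, if_neg fun h => hij h.symm, star_zero, sub_zero, smul_zero]
  refine ⟨fun i => (c i i).re, fun i => (c i i).im, ?_, ?_, ?_⟩
  · rw [h1]
    exact Submodule.smul_mem _ _ (add_mem hc (hs c hc))
  · rw [h2]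
    exact Submodule.smul_mem _ _ (sub_mem hc (hs c hc))
  · ext i j
    rw [Matrix.add_apply, Matrix.smul_apply, dg, dg, Matrix.diagonal_apply, Matrix.diagonal_apply,
      e1 i j]
    by_cases hij : i = j
    · rw [if_pos hij, if_pos hij, if_pos hij, smul_eq_mul, mul_comm, Complex.re_add_im]
    · rw [if_neg hij, if_neg hij, if_neg hij, smul_zero, add_zero]

end Pool.Agent.Q211.ZG
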